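import Mathlib
import Pool.Agent.Helper827.B17

/-!
The case `k = 1` of the problem, in full generality: on every Banach space with a `C^1` bump
function every continuous map into a Banach space is uniformly approximable by `C^1` maps.

A Frechet differentiable bump makes the dual ball `K` (weak-star topology) fragmented by the norm
(`B.bump_frag`).  A transfinite sequence of derived sets `A_ζ` of `K` and a greedy algorithm give
weak-star-to-norm continuous maps `G_s : K → X*`, indexed by finite sequences `s` of steps, such
that for every `x` in a given ball some `|h(x) - G_s(h)(x)|` is less than `3/2` for all `h ∈ K`.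
The sets `{sup_A |h(x) - G_s(h)(x)| ≤ q}` and `{sup_A |h(x) - G_s(h)(x)| ≥ q'}` are separated by
`C^1` functions (`B.sep2`), and this gives sigma-discrete families of cozero sets of `C^1`
functions with small diameters (`B.core`).
-/

set_option autoImplicit false

namespace Pool.Agent.Results.MP_e94b74_an.C1Approximation

open Pool.Agent.Helper827.B

/-- If a real Banach space `X` admits a `C^1`-smooth bump function, then every continuous map from
`X` to any real Banach space `Y` is uniformly approximable by `C^1`-smooth maps. -/
theorem result (X : Type) [NormedAddCommGroup X] [NormedSpace ℝ X] [CompleteSpace X]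
    (hX : ∃ b : X → ℝ, ContDiff ℝ 1 b ∧ b ≠ 0 ∧ Bornology.IsBounded (Function.support b))
    (Y : Type) [NormedAddCommGroup Y] [NormedSpace ℝ Y] [CompleteSpace Y]
    (f : X → Y) (hf : Continuous f) (ε : ℝ) (hε : 0 < ε) :
    ∃ g : X → Y, ContDiff ℝ 1 g ∧ ∀ x, ‖f x - g x‖ < ε := by
  obtain ⟨b, hb, hb0, hbb⟩ := hX
  have hne : ∃ x, b x ≠ 0 := by
    by_contra hcon
    push Not at hcon
    exact hb0 (funext hcon)
  exact approx_main (bump_frag (hb.differentiable (by norm_num)) hne hbb) f hf hε

end Pool.Agent.Results.MP_e94b74_an.C1Approximation
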